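import Mathlib

/-!
Primes of polynomial rings which meet the ring of coefficients in zero are principal; partial
derivatives of polynomials.
-/

set_option autoImplicit false

namespace Pool.Agent.Y686.KC

open MvPolynomial

section upoly

variable {B : Type} [CommRing B] [IsDomain B] [UniqueFactorizationMonoid B]

/-- a prime ideal which meets the ring of coefficients in zero is principal -/
theorem princ (I : Ideal (Polynomial B)) (hI : I.IsPrime)
    (h0 : ∀ b, Polynomial.C b ∈ I → b = 0) (hb : I ≠ ⊥) :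
    ∃ p ∈ I, Prime p ∧ ∀ h ∈ I, p ∣ h := by
  classical
  -- an element of minimal degree
  have hex : ∃ N, ∃ f ∈ I, f ≠ 0 ∧ f.natDegree = N := by
    obtain ⟨f, hf, hf0⟩ := Submodule.exists_mem_ne_zero_of_ne_bot hb
    exact ⟨_, f, hf, hf0, rfl⟩
  obtain ⟨f, hf, hf0, hfN⟩ := Nat.find_spec hex
  have hmin : ∀ h ∈ I, h ≠ 0 → Nat.find hex ≤ h.natDegree := fun h hh hh0 =>
    Nat.find_min' hex ⟨h, hh, hh0, rfl⟩
  -- an irreducible factor
  obtain ⟨p, hpI, hp, hpf⟩ : ∃ p ∈ I, Prime p ∧ p ∣ f := by
    have h1 := UniqueFactorizationMonoid.exists_prime_factors f hf0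
    obtain ⟨s, hs, u, hu⟩ := h1
    have h2 : s.prod ∈ I := by
      have : f * (↑u⁻¹ : Polynomial B) ∈ I := I.mul_mem_right _ hf
      rw [← hu, mul_assoc, Units.mul_inv, mul_one] at this
      exact this
    obtain ⟨p, hps, hpI⟩ := (hI.multiset_prod_mem_iff_exists_mem s).1 h2
    refine ⟨p, hpI, hs p hps, ?_⟩
    rw [← hu]
    exact (Multiset.dvd_prod hps).mul_right _
  have hp0 : p ≠ 0 := hp.ne_zero
  have hpN : p.natDegree = Nat.find hex := by
    refine le_antisymm ?_ (hmin p hpI hp0)
    rw [← hfN]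
    exact Polynomial.natDegree_le_of_dvd hpf hf0
  have hpos : 0 < p.natDegree := by
    by_contra hcon
    have h1 : p.natDegree = 0 := by omega
    rw [Polynomial.eq_C_of_natDegree_eq_zero h1] at hpI hp0
    have := h0 _ hpI
    rw [this] at hp0
    simp at hp0
  have hlc : ¬ p ∣ Polynomial.C p.leadingCoeff := by
    intro h
    have h1 := Polynomial.natDegree_le_of_dvd h (by simpa using hp0)
    rw [Polynomial.natDegree_C] at h1
    omega
  refine ⟨p, hpI, hp, ?_⟩
  intro h hh
  induction hn : h.natDegree using Nat.strong_induction_on generalizing h with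
  | _ N ih =>
    by_cases hh0 : h = 0
    · rw [hh0]
      exact dvd_zero p
    have hle : p.natDegree ≤ h.natDegree := by
      rw [hpN]
      exact hmin h hh hh0
    have hlt := Polynomial.natDegree_cancelLeads_lt_of_natDegree_le_natDegree hle
      (by omega : 0 < h.natDegree)
    have hmem : p.cancelLeads h ∈ I := by
      unfold Polynomial.cancelLeads
      exact I.sub_mem (I.mul_mem_left _ hh) (I.mul_mem_left _ hpI)
    have h3 := ih _ (by omega) _ hmem rfl
    unfold Polynomial.cancelLeads at h3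
    have h4 : p ∣ Polynomial.C p.leadingCoeff * Polynomial.X ^ (p.natDegree - h.natDegree) * h := by
      have h5 := dvd_add h3 (Dvd.intro_left
        (Polynomial.C h.leadingCoeff * Polynomial.X ^ (h.natDegree - p.natDegree)) rfl)
      rwa [sub_add_cancel] at h5
    rw [Nat.sub_eq_zero_of_le hle, pow_zero, mul_one] at h4
    exact (hp.dvd_or_dvd h4).resolve_left hlc

end upoly

section mvpoly

variable {n : ℕ}

/-- the index `k` as the last variable -/
noncomputable def eqv (k : Fin n) :
    MvPolynomial (Fin n) ℂ ≃ₐ[ℂ] Polynomial (MvPolynomial {i : Fin n // i ≠ k} ℂ) :=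
  (renameEquiv ℂ (Equiv.optionSubtypeNe k).symm).trans (optionEquivLeft ℂ {i : Fin n // i ≠ k})

theorem pderiv_eqv_symm_C (k : Fin n) (b : MvPolynomial {i : Fin n // i ≠ k} ℂ) :
    pderiv k ((eqv k).symm (Polynomial.C b)) = 0 := by
  have h1 : (eqv k).symm (Polynomial.C b) = rename Subtype.val b := by
    rw [AlgEquiv.symm_apply_eq]
    unfold eqv
    rw [AlgEquiv.trans_apply, renameEquiv_apply, rename_rename]
    have h2 : (Equiv.optionSubtypeNe k).symm ∘ (Subtype.val : {i : Fin n // i ≠ k} → Fin n)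
        = some := by
      funext i
      simp [i.2]
    rw [h2]
    induction b using MvPolynomial.induction_on with
    | C a => simp
    | add p q hp hq => rw [Polynomial.C_add, map_add, map_add, hp, hq]
    | mul_X p i hp => rw [Polynomial.C_mul, map_mul, map_mul, hp, rename_X, optionEquivLeft_X_some]
  rw [h1]
  apply pderiv_eq_zero_of_notMem_vars
  intro hmem
  have := vars_rename (Subtype.val : {i : Fin n // i ≠ k} → Fin n) b hmem
  obtain ⟨i, -, hi⟩ := Finset.mem_image.1 this
  exact i.2 hi

/-- a prime ideal without nonzero polynomials which are constant in `X k` is principal -/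
theorem princ_mv (k : Fin n) (I : Ideal (MvPolynomial (Fin n) ℂ)) (hI : I.IsPrime)
    (h0 : ∀ c ∈ I, pderiv k c = 0 → c = 0) (hb : I ≠ ⊥) :
    ∃ p ∈ I, Prime p ∧ ∀ h ∈ I, p ∣ h := by
  let φ := eqv k
  let J : Ideal (Polynomial (MvPolynomial {i : Fin n // i ≠ k} ℂ)) :=
    I.comap (φ.symm : _ →+* MvPolynomial (Fin n) ℂ)
  have hJ : J.IsPrime := Ideal.comap_isPrime _ _
  have hmem : ∀ a, a ∈ J ↔ φ.symm a ∈ I := fun a => Iff.rfl
  have h1 : ∀ b, Polynomial.C b ∈ J → b = 0 := by
    intro b hb
    have h2 := h0 _ ((hmem _).1 hb) (pderiv_eqv_symm_C k b)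
    have h3 : Polynomial.C b = 0 := by
      have := congrArg φ h2
      rwa [AlgEquiv.apply_symm_apply, map_zero] at this
    exact Polynomial.C_eq_zero.1 h3
  have h2 : J ≠ ⊥ := by
    obtain ⟨f, hf, hf0⟩ := Submodule.exists_mem_ne_zero_of_ne_bot hb
    intro hJb
    have h3 : φ f ∈ J := by
      rw [hmem, AlgEquiv.symm_apply_apply]
      exact hf
    rw [hJb, Ideal.mem_bot] at h3
    exact hf0 ((map_eq_zero_iff φ φ.injective).1 h3)
  obtain ⟨p, hp, hpp, hdvd⟩ := princ J hJ h1 h2
  refine ⟨φ.symm p, (hmem p).1 hp, ?_, ?_⟩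
  · exact (MulEquiv.prime_iff φ.symm.toMulEquiv).2 hpp
  · intro h hh
    have h3 := hdvd (φ h) (by rw [hmem, AlgEquiv.symm_apply_apply]; exact hh)
    have h4 := map_dvd φ.symm h3
    rwa [AlgEquiv.symm_apply_apply] at h4

variable {σ : Type}

theorem eq_C_of_pderiv (P : MvPolynomial σ ℂ) (h : ∀ i, pderiv i P = 0) :
    P = C (coeff 0 P) := by
  classical
  ext m
  rw [coeff_C]
  split_ifs with hm
  · rw [← hm]
  · by_contra hne
    obtain ⟨i, hi⟩ : ∃ i, m i ≠ 0 := by
      by_contra hcon
      push Not at hcon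
      exact hm (by ext i; simp [hcon i])
    have h1 : coeff (m - Finsupp.single i 1) (pderiv i P) = 0 := by rw [h i]; simp
    have h3 : m - (Finsupp.single i 1 : σ →₀ ℕ) + Finsupp.single i 1 = m :=
      tsub_add_cancel_of_le (by
        rw [Finsupp.single_le_iff]; omega)
    rw [coeff_pderiv, h3] at h1
    rcases mul_eq_zero.1 h1 with h4 | h4
    · exact hne h4
    · have : ((m i : ℕ) : ℂ) ≠ 0 := by exact_mod_cast hi
      apply this
      have h5 : (m - (Finsupp.single i 1 : σ →₀ ℕ)) i + 1 = m i := by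
        simp; omega
      rw [← h5]; push_cast; exact h4

theorem totalDegree_pderiv_lt (P : MvPolynomial σ ℂ) (i : σ) (h : pderiv i P ≠ 0) :
    (pderiv i P).totalDegree < P.totalDegree := by
  classical
  have key : ∀ m ∈ (pderiv i P).support, (m.sum fun _ e => e) + 1 ≤ P.totalDegree := by
    intro m hm
    rw [mem_support_iff, coeff_pderiv] at hm
    have h1 : m + Finsupp.single i 1 ∈ P.support := by
      rw [mem_support_iff]
      intro h0
      rw [h0, zero_mul] at hm
      exact hm rfl
    have h2 := le_totalDegree h1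
    rw [Finsupp.sum_add_index' (by simp) (by simp)] at h2
    simpa using h2
  obtain ⟨m, hm, hm2⟩ := (totalDegree_eq (pderiv i P)).symm ▸
    Finset.exists_mem_eq_sup (pderiv i P).support (by
      rwa [Finset.nonempty_iff_ne_empty, Ne, support_eq_empty]) (fun m => m.toMultiset.card)
  have := key m hm
  rw [hm2, Finsupp.card_toMultiset]
  exact this

theorem pderiv_comm (i j : σ) (P : MvPolynomial σ ℂ) :
    pderiv i (pderiv j P) = pderiv j (pderiv i P) := by
  classical
  have h : ⁅(pderiv i : Derivation ℂ (MvPolynomial σ ℂ) (MvPolynomial σ ℂ)),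
      (pderiv j : Derivation ℂ (MvPolynomial σ ℂ) (MvPolynomial σ ℂ))⁆ = 0 := by
    apply MvPolynomial.derivation_ext
    intro l
    rw [Derivation.commutator_apply]
    simp [pderiv_X, Pi.single_apply]
    split_ifs <;> simp
  have h1 := congrArg (fun D => D P) h
  simp only [Derivation.commutator_apply, Derivation.coe_zero, Pi.zero_apply] at h1
  exact sub_eq_zero.1 h1

end mvpoly

end Pool.Agent.Y686.KC
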