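import Pool.Agent.W602.GT.Defs
import Pool.Agent.Y686.KC.Alg

/-!
Places of the field of rational functions with centre on the torus, and derivations.
-/

set_option autoImplicit false

namespace Pool.Agent.Y686.KC

open FF MvPolynomial Pool.Agent.W602.GT

variable {n : ℕ} {K : Type} [Field K] [Algebra ℂ K] (P : Place ℂ K)

/-- the maximal ideal of the place -/
def Mx (f : K) : Prop := P.Reg f ∧ P.red f = 0

variable {P}

theorem Mx.add {f g : K} (hf : Mx P f) (hg : Mx P g) : Mx P (f + g) :=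
  ⟨P.reg_add hf.1 hg.1, by rw [P.red_add hf.1 hg.1, hf.2, hg.2, add_zero]⟩

theorem Mx.mul {f g : K} (hf : Mx P f) (hg : P.Reg g) : Mx P (f * g) :=
  ⟨P.reg_mul hf.1 hg, by rw [P.red_mul hf.1 hg, hf.2, zero_mul]⟩

theorem Mx.neg {f : K} (hf : Mx P f) : Mx P (-f) :=
  ⟨P.reg_neg hf.1, by rw [P.red_neg hf.1, hf.2, neg_zero]⟩

theorem mx_zero : Mx P 0 := ⟨P.reg_zero, P.red_zero⟩

theorem mx_iff {f : K} : Mx P f ↔ f = 0 ∨ 0 < P.ord f := by
  constructor
  · intro h
    exact (P.red_eq_zero_iff h.1).1 h.2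
  · intro h
    have hr : P.Reg f := h.imp id le_of_lt
    exact ⟨hr, (P.red_eq_zero_iff hr).2 h⟩

theorem mx_of_mul {f g : K} (hf : P.Reg f) (hg : P.Reg g) (h : Mx P (f * g)) :
    Mx P f ∨ Mx P g := by
  have h1 := h.2
  rw [P.red_mul hf hg] at h1
  rcases mul_eq_zero.1 h1 with h2 | h2
  · exact Or.inl ⟨hf, h2⟩
  · exact Or.inr ⟨hg, h2⟩

/-- elements of the maximal ideal are multiples of a uniformizer -/
theorem Mx.exists {f t : K} (hf : Mx P f) (ht0 : t ≠ 0) (ht : P.ord t = 1) :
    ∃ u, P.Reg u ∧ f = t * u := by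
  refine ⟨f / t, ?_, by rw [mul_div_cancel₀ _ ht0]⟩
  by_cases h0 : f = 0
  · left
    rw [h0, zero_div]
  · right
    rw [P.ord_div h0 ht0, ht]
    have := (mx_iff.1 hf).resolve_left h0
    omega

theorem reg_aeval {y : Fin n → K} (hy : ∀ i, P.Reg (y i)) (a : MvPolynomial (Fin n) ℂ) :
    P.Reg (aeval y a) := by
  induction a using MvPolynomial.induction_on with
  | C c =>
    rw [aeval_C]
    exact P.reg_const c
  | add p q hp hq =>
    rw [map_add]
    exact P.reg_add hp hq
  | mul_X p i hp =>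
    rw [map_mul, aeval_X]
    exact P.reg_mul hp (hy i)

/-- the centre of the place on the affine space -/
noncomputable def ctr (P : Place ℂ K) {y : Fin n → K} (hy : ∀ i, P.Reg (y i)) :
    Ideal (MvPolynomial (Fin n) ℂ) where
  carrier := {a | Mx P (aeval y a)}
  zero_mem' := by
    change Mx P (aeval y 0)
    rw [map_zero]
    exact mx_zero
  add_mem' := by
    intro a b ha hb
    change Mx P (aeval y (a + b))
    rw [map_add]
    exact Mx.add ha hb
  smul_mem' := by
    intro c a ha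
    change Mx P (aeval y (c * a))
    rw [map_mul, mul_comm]
    exact Mx.mul ha (reg_aeval hy c)

theorem mem_ctr {y : Fin n → K} (hy : ∀ i, P.Reg (y i)) (a : MvPolynomial (Fin n) ℂ) :
    a ∈ ctr P hy ↔ Mx P (aeval y a) := Iff.rfl

theorem ctr_prime {y : Fin n → K} (hy : ∀ i, P.Reg (y i)) : (ctr P hy).IsPrime := by
  constructor
  · rw [Ideal.ne_top_iff_one, mem_ctr, map_one]
    intro h
    have := h.2
    rw [P.red_one] at this
    exact one_ne_zero this
  · intro a b hab
    rw [mem_ctr, map_mul] at hab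
    exact mx_of_mul (reg_aeval hy a) (reg_aeval hy b) hab

/-- the partial derivatives -/
theorem der_aeval {y : Fin n → K} {k : Fin n} (D : Derivation ℂ K K)
    (hD : ∀ i, D (y i) = if i = k then 1 else 0) (a : MvPolynomial (Fin n) ℂ) :
    D (aeval y a) = aeval y (pderiv k a) := by
  induction a using MvPolynomial.induction_on with
  | C c =>
    rw [aeval_C, D.map_algebraMap, pderiv_C, map_zero]
  | add p q hp hq =>
    rw [map_add, map_add, map_add, map_add, hp, hq]
  | mul_X p i hp =>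
    rw [map_mul, D.leibniz, hp, aeval_X, hD, (pderiv k).leibniz, map_add, pderiv_X]
    simp only [smul_eq_mul, map_mul, aeval_X]
    by_cases hik : i = k
    · subst hik
      simp
    · rw [if_neg hik, Pi.single_apply, if_neg hik]
      simp

/-- if all partial derivatives are regular, the centre is a hypersurface -/
theorem exists_index {y : Fin n → K} (hy : ∀ i, P.Reg (y i)) (D : Fin n → Derivation ℂ K K)
    (hD : ∀ k i, D k (y i) = if i = k then 1 else 0) (hreg : ∀ k, DerReg P (D k))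
    (hb : ctr P hy ≠ ⊥) :
    ∃ k, ∀ c ∈ ctr P hy, pderiv k c = 0 → c = 0 := by
  classical
  obtain ⟨t, ht0, ht⟩ := P.surj
  have hder : ∀ k a, D k (aeval y a) = aeval y (pderiv k a) := fun k a => der_aeval (D k) (hD k) a
  -- constants
  have hconst : ∀ c ∈ ctr P hy, (∀ i, pderiv i c = 0) → c = 0 := by
    intro c hc hc0
    rw [eq_C_of_pderiv c hc0] at hc ⊢
    by_contra hne
    have h1 : coeff 0 c ≠ 0 := fun h => hne (by rw [h, map_zero])
    rw [mem_ctr, aeval_C, mx_iff] at hc
    rcases hc with h | h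
    · exact h1 ((map_eq_zero _).1 h)
    · rw [P.ord_const h1] at h
      exact lt_irrefl _ h
  -- an element of minimal degree
  have hex : ∃ N, ∃ f ∈ ctr P hy, f ≠ 0 ∧ f.totalDegree = N := by
    obtain ⟨f, hf, hf0⟩ := Submodule.exists_mem_ne_zero_of_ne_bot hb
    exact ⟨_, f, hf, hf0, rfl⟩
  obtain ⟨f, hf, hf0, hfN⟩ := Nat.find_spec hex
  obtain ⟨k, hk⟩ : ∃ k, pderiv k f ∉ ctr P hy := by
    by_contra hcon
    push Not at hcon
    apply hf0
    apply hconst f hf
    intro i
    by_contra hne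
    have h1 := totalDegree_pderiv_lt f i hne
    have h2 := Nat.find_min' hex ⟨_, hcon i, hne, rfl⟩
    omega
  refine ⟨k, ?_⟩
  -- `f` is a uniformizer
  obtain ⟨u, hu, hfu⟩ := Mx.exists ((mem_ctr hy f).1 hf) ht0 ht
  have hfd : P.Reg (D k (aeval y f)) := by
    rw [hder]
    exact reg_aeval hy _
  have hunit : ¬ Mx P (D k (aeval y f)) := by
    rw [hder]
    exact hk
  have hmt : Mx P t := mx_iff.2 (Or.inr (by omega))
  have hord : aeval y f ≠ 0 ∧ P.ord (aeval y f) = 1 := by
    have h1 : ¬ Mx P u := by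
      intro h
      apply hunit
      rw [hfu, (D k).leibniz, smul_eq_mul, smul_eq_mul]
      exact Mx.add (Mx.mul hmt (hreg k u hu)) (Mx.mul h (hreg k t hmt.1))
    rw [mx_iff] at h1
    push Not at h1
    have h2 := (P.reg_iff h1.1).1 hu
    refine ⟨by rw [hfu]; exact mul_ne_zero ht0 h1.1, ?_⟩
    rw [hfu, P.ord_mul ht0 h1.1, ht]
    omega
  have hmf : Mx P (aeval y f) := hf
  -- descent
  intro c
  induction hn : c.totalDegree using Nat.strong_induction_on generalizing c with
  | _ N ih =>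
    intro hc hkc
    apply hconst c hc
    intro j
    by_contra hne
    have h1 := totalDegree_pderiv_lt c j hne
    apply hne
    refine ih _ (by omega) (pderiv j c) rfl ?_ ?_
    · obtain ⟨v, hv, hcv⟩ := Mx.exists ((mem_ctr hy c).1 hc) hord.1 hord.2
      have h2 : Mx P v := by
        have h3 : D k (aeval y c) = 0 := by rw [hder, hkc, map_zero]
        rw [hcv, (D k).leibniz, smul_eq_mul, smul_eq_mul] at h3
        have h4 : Mx P (v * D k (aeval y f)) := by
          have h5 : v * D k (aeval y f) = -(aeval y f * D k v) := by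
            linear_combination h3
          rw [h5]
          exact (Mx.mul hmf (hreg k v hv)).neg
        exact (mx_of_mul hv hfd h4).resolve_right hunit
      rw [mem_ctr, ← hder, hcv, (D j).leibniz, smul_eq_mul, smul_eq_mul]
      exact Mx.add (Mx.mul hmf (hreg j v hv)) (Mx.mul h2 (hreg j _ hmf.1))
    · rw [pderiv_comm, hkc, map_zero]

/-- the orders of the multiples of the generator -/
theorem ord_eq {y : Fin n → K} (hy : ∀ i, P.Reg (y i)) (hinj : AlgebraicIndependent ℂ y)
    {p : MvPolynomial (Fin n) ℂ} (hp : Prime p) (hdvd : ∀ h ∈ ctr P hy, p ∣ h)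
    (a : MvPolynomial (Fin n) ℂ) (ha : a ≠ 0) :
    ∃ (m : ℕ) (b : MvPolynomial (Fin n) ℂ), a = p ^ m * b ∧ ¬ p ∣ b ∧
      P.ord (aeval y a) = m * P.ord (aeval y p) := by
  obtain ⟨m, b, hb, hab⟩ := WfDvdMonoid.max_power_factor ha hp.irreducible
  refine ⟨m, b, hab, hb, ?_⟩
  have hne : ∀ c : MvPolynomial (Fin n) ℂ, c ≠ 0 → aeval y c ≠ 0 := by
    intro c hc h
    exact hc (hinj (by rw [h, map_zero]))
  have hb0 : b ≠ 0 := by
    rintro rfl
    exact hb (dvd_zero p)
  rw [hab, map_mul, map_pow, P.ord_mul (pow_ne_zero _ (hne p hp.ne_zero)) (hne b hb0), P.ord_pow]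
  have h1 : ¬ Mx P (aeval y b) := fun h => hb (hdvd b h)
  rw [mx_iff] at h1
  push Not at h1
  have h2 := (P.reg_iff (hne b hb0)).1 (reg_aeval hy b)
  have h3 : P.ord (aeval y b) = 0 := le_antisymm h1.2 h2
  rw [h3, add_zero]

/-- the generator is a uniformizer -/
theorem ord_gen {y : Fin n → K} (hy : ∀ i, P.Reg (y i)) (hinj : AlgebraicIndependent ℂ y)
    (htop : IntermediateField.adjoin ℂ (Set.range y) = ⊤)
    {p : MvPolynomial (Fin n) ℂ} (hp : Prime p) (hpm : p ∈ ctr P hy)
    (hdvd : ∀ h ∈ ctr P hy, p ∣ h) : P.ord (aeval y p) = 1 := by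
  have hne : ∀ c : MvPolynomial (Fin n) ℂ, c ≠ 0 → aeval y c ≠ 0 := by
    intro c hc h
    exact hc (hinj (by rw [h, map_zero]))
  have hpos : 0 < P.ord (aeval y p) :=
    (mx_iff.1 ((mem_ctr hy p).1 hpm)).resolve_left (hne p hp.ne_zero)
  obtain ⟨t, ht0, ht⟩ := P.surj
  obtain ⟨a, b, hab⟩ : ∃ a b : MvPolynomial (Fin n) ℂ, t = aeval y a / aeval y b := by
    have h1 : t ∈ IntermediateField.adjoin ℂ (Set.range y) := by rw [htop]; trivial
    rw [IntermediateField.mem_adjoin_range_iff] at h1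
    obtain ⟨a, b, h⟩ := h1
    exact ⟨a, b, h⟩
  have ha : a ≠ 0 := by
    rintro rfl
    rw [map_zero, zero_div] at hab
    exact ht0 hab
  have hb : b ≠ 0 := by
    rintro rfl
    rw [map_zero, div_zero] at hab
    exact ht0 hab
  obtain ⟨m, -, -, -, hm⟩ := ord_eq hy hinj hp hdvd a ha
  obtain ⟨m', -, -, -, hm'⟩ := ord_eq hy hinj hp hdvd b hb
  have h2 : (1 : ℤ) = (m - m') * P.ord (aeval y p) := by
    rw [← ht, hab, P.ord_div (hne a ha) (hne b hb), hm, hm']
    ring
  have h3 : P.ord (aeval y p) ∣ 1 := Dvd.intro_left _ h2.symm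
  exact Int.eq_one_of_dvd_one hpos.le h3

end Pool.Agent.Y686.KC
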