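import Pool.Agent.Y686.KC.Deep

/-!
Places of the field of rational functions with centre on the torus, and regular derivations.
-/

set_option autoImplicit false

namespace Pool.Agent.Y686.KC

open FF MvPolynomial Pool.Agent.W602.GT

variable {n : ℕ} {K : Type} [Field K] [Algebra ℂ K] {P : Place ℂ K}

theorem sum_der {ι : Type} (s : Finset ι) (D : ι → Derivation ℂ K K) (f : K) :
    (∑ i ∈ s, D i) f = ∑ i ∈ s, D i f := by
  classical
  induction s using Finset.induction_on with
  | empty => simp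
  | insert a s ha ih => rw [Finset.sum_insert ha, Finset.sum_insert ha, Derivation.add_apply, ih]

/-- if the Jacobian determinant is a unit, all partial derivatives are regular -/
theorem exists_pd {y : Fin n → K} (hy : ∀ i, P.Reg (y i)) (D : Fin n → Derivation ℂ K K)
    (hD : ∀ i, DerReg P (D i)) (h0 : (Matrix.of fun i k : Fin n => D i (y k)).det ≠ 0)
    (h1 : ¬ 1 ≤ P.ord (Matrix.of fun i k : Fin n => D i (y k)).det) :
    ∃ E : Fin n → Derivation ℂ K K, (∀ k i, E k (y i) = if i = k then 1 else 0) ∧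
      ∀ k, DerReg P (E k) := by
  classical
  let N : Matrix (Fin n) (Fin n) P.O := Matrix.of fun i k => ⟨D i (y k), hD i _ (hy k)⟩
  have hN : (P.O.subtype).mapMatrix N = Matrix.of fun i k : Fin n => D i (y k) := by
    ext i k
    rfl
  have hdet : ((N.det : P.O) : K) = (Matrix.of fun i k : Fin n => D i (y k)).det := by
    rw [← hN, ← RingHom.map_det]
    rfl
  have hreg : P.Reg ((N.det : P.O) : K) := (N.det).2
  have hord : P.ord ((N.det : P.O) : K) = 0 := by
    have h2 := (P.reg_iff (by rw [hdet]; exact h0)).1 hreg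
    rw [hdet] at h2 ⊢
    omega
  have hu : IsUnit N.det := by
    have h2 := (P.isUnit_O_iff hreg).2 ⟨by rw [hdet]; exact h0, hord⟩
    exact h2
  have hinv : N⁻¹ * N = 1 := Matrix.nonsing_inv_mul N hu
  refine ⟨fun k => ∑ i, ((N⁻¹ k i : P.O) : K) • D i, ?_, ?_⟩
  · intro k i
    have h2 : ((N⁻¹ * N) k i : P.O) = if i = k then 1 else 0 := by
      rw [hinv, Matrix.one_apply]
      simp only [eq_comm]
    rw [Matrix.mul_apply] at h2
    have h3 := congrArg (fun z : P.O => (z : K)) h2
    rw [sum_der]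
    simp only [Derivation.coe_smul, Pi.smul_apply, smul_eq_mul]
    have h4 : (((∑ j, N⁻¹ k j * N j i : P.O)) : K) = ∑ j, ((N⁻¹ k j : P.O) : K) * D j (y i) := by
      rw [show (((∑ j, N⁻¹ k j * N j i : P.O)) : K) = P.O.subtype (∑ j, N⁻¹ k j * N j i) from rfl,
        map_sum]
      rfl
    rw [← h4]
    refine h3.trans ?_
    split_ifs <;> rfl
  · intro k f hf
    rw [sum_der]
    have : ∀ i ∈ Finset.univ, P.Reg ((((N⁻¹ k i : P.O) : K) • D i) f) := by
      intro i _
      rw [Derivation.coe_smul, Pi.smul_apply, smul_eq_mul]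
      exact P.reg_mul (N⁻¹ k i).2 (hD i f hf)
    exact Finset.sum_induction _ (P.Reg ·) (fun _ _ => P.reg_add) P.reg_zero this

/-- the inclusion of the polynomials in the Laurent polynomials -/
noncomputable def inc (n : ℕ) : MvPolynomial (Fin n) ℂ →ₐ[ℂ] AddMonoidAlgebra ℂ (Fin n → ℤ) :=
  aeval (fun i => AddMonoidAlgebra.single (Pi.single i 1) (1 : ℂ))

theorem inc_monomial (s : Fin n →₀ ℕ) (c : ℂ) :
    inc n (monomial s c) = AddMonoidAlgebra.single (fun i => (s i : ℤ)) c := by
  unfold inc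
  rw [aeval_monomial]
  have h1 : ∀ i (k : ℕ), (AddMonoidAlgebra.single (Pi.single i 1 : Fin n → ℤ) (1 : ℂ)) ^ k
      = AddMonoidAlgebra.single (Pi.single i (k : ℤ) : Fin n → ℤ) (1 : ℂ) := by
    intro i k
    rw [AddMonoidAlgebra.single_pow, one_pow, ← Pi.single_smul]
    simp
  have h2 : (s.prod fun i k => (AddMonoidAlgebra.single (Pi.single i 1 : Fin n → ℤ) (1 : ℂ)) ^ k)
      = AddMonoidAlgebra.single (fun i => (s i : ℤ)) (1 : ℂ) := by
    rw [Finsupp.prod_fintype _ _ (by intro i; rw [pow_zero])]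
    simp only [h1]
    have h3 : ∀ t : Finset (Fin n), (∏ i ∈ t,
        AddMonoidAlgebra.single (Pi.single i (s i : ℤ) : Fin n → ℤ) (1 : ℂ))
        = AddMonoidAlgebra.single (∑ i ∈ t, (Pi.single i (s i : ℤ) : Fin n → ℤ)) (1 : ℂ) := by
      intro t
      classical
      induction t using Finset.induction_on with
      | empty =>
        simp [AddMonoidAlgebra.one_def]
      | insert i t hi ih =>
        rw [Finset.prod_insert hi, Finset.sum_insert hi, ih, AddMonoidAlgebra.single_mul_single,
          one_mul]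
    rw [h3]
    congr 1
    funext i
    rw [Finset.sum_apply]
    simp
  rw [h2, Algebra.algebraMap_eq_smul_one, smul_mul_assoc, one_mul, AddMonoidAlgebra.smul_single,
    smul_eq_mul, mul_one]

/-- Laurent polynomials are quotients of polynomials by monomials -/
theorem exists_poly (g : AddMonoidAlgebra ℂ (Fin n → ℤ)) :
    ∃ (s : Fin n →₀ ℕ) (a : MvPolynomial (Fin n) ℂ),
      AddMonoidAlgebra.single (fun i => (s i : ℤ)) (1 : ℂ) * g = inc n a := by
  classical
  induction g using AddMonoidAlgebra.induction_linear with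
  | zero => exact ⟨0, 0, by rw [mul_zero, map_zero]⟩
  | add f g hf hg =>
    obtain ⟨s, a, h1⟩ := hf
    obtain ⟨t, b, h2⟩ := hg
    refine ⟨s + t, monomial t 1 * a + monomial s 1 * b, ?_⟩
    rw [map_add, map_mul, map_mul, inc_monomial, inc_monomial, ← h1, ← h2]
    have h3 : (fun i => ((s + t) i : ℤ)) = (fun i => (s i : ℤ)) + fun i => (t i : ℤ) := by
      funext i
      simp
    have h4 : (AddMonoidAlgebra.single (fun i => ((s + t) i : ℤ)) (1 : ℂ) :
        AddMonoidAlgebra ℂ (Fin n → ℤ)) = AddMonoidAlgebra.single (fun i => (s i : ℤ)) (1 : ℂ) *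
          AddMonoidAlgebra.single (fun i => (t i : ℤ)) (1 : ℂ) := by
      rw [AddMonoidAlgebra.single_mul_single, one_mul, h3]
    rw [h4]
    ring
  | single m c =>
    refine ⟨Finsupp.equivFunOnFinite.symm fun i => (-(m i)).toNat,
      monomial (Finsupp.equivFunOnFinite.symm fun i => (m i).toNat) c, ?_⟩
    rw [inc_monomial, AddMonoidAlgebra.single_mul_single, one_mul]
    congr 1
    funext i
    simp only [Pi.add_apply, Finsupp.equivFunOnFinite_symm_apply_apply]
    omega

theorem ord_unit (x : Fin n → Kˣ) (hx : ∀ i, P.ord (x i : K) = 0) (m : Fin n → ℤ) :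
    P.ord ((∏ i, x i ^ m i : Kˣ) : K) = 0 := by
  refine Finset.prod_induction _ (fun u : Kˣ => P.ord (u : K) = 0) ?_ ?_ ?_
  · intro a b ha hb
    rw [Units.val_mul, P.ord_mul a.ne_zero b.ne_zero, ha, hb, add_zero]
  · rw [Units.val_one, P.ord_one]
  · intro i _
    rw [Units.val_zpow_eq_zpow_val, P.ord_zpow, hx, mul_zero]

/-- the main statement -/
theorem deep (x : Fin n → Kˣ) (E : AddMonoidAlgebra ℂ (Fin n → ℤ) →ₐ[ℂ] K)
    (hE : ∀ m c, E (AddMonoidAlgebra.single m c) = c • ((∏ i, x i ^ m i : Kˣ) : K))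
    (hinj : AlgebraicIndependent ℂ (fun i => (x i : K)))
    (htop : IntermediateField.adjoin ℂ (Set.range fun i => (x i : K)) = ⊤)
    (g : AddMonoidAlgebra ℂ (Fin n → ℤ)) (hg : (Ideal.span {g}).IsRadical)
    (hx : ∀ i, P.ord (x i : K) = 0) (h2 : 2 ≤ P.ord (E g))
    (D : Fin n → Derivation ℂ K K) (hD : ∀ i, DerReg P (D i)) :
    (Matrix.of fun i k : Fin n => D i (x k : K)).det = 0 ∨
      1 ≤ P.ord (Matrix.of fun i k : Fin n => D i (x k : K)).det := by
  classical
  by_contra hcon
  push Not at hcon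
  have hy : ∀ i, P.Reg (x i : K) := fun i => Or.inr (hx i).ge
  obtain ⟨Q, hd1, hd2⟩ := exists_pd hy D hD hcon.1 (not_le.2 hcon.2)
  have hne : ∀ c : MvPolynomial (Fin n) ℂ, c ≠ 0 → aeval (fun i => (x i : K)) c ≠ 0 := by
    intro c hc h
    exact hc (hinj (by rw [h, map_zero]))
  have hEi : ∀ a, E (inc n a) = aeval (fun i => (x i : K)) a := by
    intro a
    have : E.comp (inc n) = aeval (fun i => (x i : K)) := by
      ext i
      simp only [AlgHom.comp_apply, inc, aeval_X]
      rw [hE, one_smul]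
      congr 1
      rw [Finset.prod_eq_single i]
      · rw [Pi.single_eq_same, zpow_one]
      · intro j _ hj
        rw [Pi.single_eq_of_ne hj, zpow_zero]
      · intro h
        exact absurd (Finset.mem_univ i) h
    exact congrArg (fun φ => φ a) this
  have hEreg : ∀ q, P.Reg (E q) := by
    intro q
    induction q using AddMonoidAlgebra.induction_linear with
    | zero => rw [map_zero]; exact P.reg_zero
    | add f g hf hg => rw [map_add]; exact P.reg_add hf hg
    | single m c =>
      rw [hE, Algebra.smul_def]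
      exact P.reg_mul (P.reg_const c) (Or.inr (ord_unit x hx m).ge)
  obtain ⟨s, a, hsa⟩ := exists_poly g
  have hEg0 : E g ≠ 0 := by
    intro h
    rw [h, P.ord_zero] at h2
    omega
  set U : Kˣ := ∏ i, x i ^ (s i : ℤ) with hU
  have hUo : P.ord (U : K) = 0 := ord_unit x hx _
  have hag : (U : K) * E g = aeval (fun i => (x i : K)) a := by
    rw [← hEi, ← hsa, map_mul, hE, one_smul]
  have ha0 : a ≠ 0 := by
    rintro rfl
    rw [map_zero] at hag
    exact (mul_ne_zero U.ne_zero hEg0) hag
  have hao : 2 ≤ P.ord (aeval (fun i => (x i : K)) a) := by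
    rw [← hag, P.ord_mul U.ne_zero hEg0, hUo, zero_add]
    exact h2
  have hac : a ∈ ctr P hy := by
    rw [mem_ctr, mx_iff]
    right
    omega
  have hbot : ctr P hy ≠ ⊥ := by
    intro h
    rw [h, Ideal.mem_bot] at hac
    exact ha0 hac
  obtain ⟨k, hk⟩ := exists_index hy Q hd1 hd2 hbot
  obtain ⟨p, hpm, hp, hdvd⟩ := princ_mv k (ctr P hy) (ctr_prime hy) hk hbot
  have hpo := ord_gen hy hinj htop hp hpm hdvd
  obtain ⟨m, b, hab, -, hm⟩ := ord_eq hy hinj hp hdvd a ha0
  rw [hpo, mul_one] at hm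
  have hm2 : 2 ≤ m := by omega
  obtain ⟨c, hc⟩ : ∃ c, a = p ^ 2 * c := by
    refine ⟨p ^ (m - 2) * b, ?_⟩
    rw [← mul_assoc, ← pow_add, hab]
    congr 2
    omega
  have hc0 : c ≠ 0 := by
    rintro rfl
    rw [mul_zero] at hc
    exact ha0 hc
  have hmem : inc n (p * c) ∈ Ideal.span {g} := by
    apply hg
    refine ⟨2, ?_⟩
    rw [Ideal.mem_span_singleton]
    refine ⟨AddMonoidAlgebra.single (fun i => (s i : ℤ)) (1 : ℂ) * inc n c, ?_⟩
    have : g * (AddMonoidAlgebra.single (fun i => (s i : ℤ)) (1 : ℂ) * inc n c) =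
      (AddMonoidAlgebra.single (fun i => (s i : ℤ)) (1 : ℂ) * g) * inc n c := by ring
    rw [this, hsa, hc, map_mul, map_mul, map_pow]
    ring
  obtain ⟨q, hq⟩ := Ideal.mem_span_singleton.1 hmem
  have h3 : aeval (fun i => (x i : K)) (p * c) = E g * E q := by
    rw [← hEi, hq, map_mul]
  have h4 : (U : K) = aeval (fun i => (x i : K)) p * E q := by
    have h5 : (aeval (fun i => (x i : K)) p * aeval (fun i => (x i : K)) c) * (U : K)
        = (aeval (fun i => (x i : K)) p * aeval (fun i => (x i : K)) c) *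
          (aeval (fun i => (x i : K)) p * E q) := by
      have h6 : (U : K) * E g = aeval (fun i => (x i : K)) p ^ 2 * aeval (fun i => (x i : K)) c := by
        rw [hag, hc, map_mul, map_pow]
      rw [map_mul] at h3
      calc _ = (U : K) * (aeval (fun i => (x i : K)) p * aeval (fun i => (x i : K)) c) := by ring
        _ = (U : K) * E g * E q := by rw [h3]; ring
        _ = _ := by rw [h6]; ring
    exact mul_left_cancel₀ (mul_ne_zero (hne p hp.ne_zero) (hne c hc0)) h5
  have hq0 : E q ≠ 0 := by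
    intro h
    rw [h, mul_zero] at h4
    exact U.ne_zero h4
  have h5 := hUo
  rw [h4, P.ord_mul (hne p hp.ne_zero) hq0, hpo] at h5
  have h6 := (P.reg_iff hq0).1 (hEreg q)
  omega

end Pool.Agent.Y686.KC
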